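import Mathlib
import Pool.Agent.Helper3_PPX.Stmts
import Pool.Agent.Helper3_PPX.Geo

/-!
# Squad PPX, module HTX: the height inequality outside a plane curve
-/

set_option autoImplicit false

universe u

namespace Pool.Agent.PPX.H5

open MvPolynomial PGH Pool.Agent.PPX

/-- the value of a polynomial in `x, z` at a point of the four dimensional space -/
theorem aeval_inc {k E : Type*} [Field k] [Field E] [Algebra k E] (x z e₂ e₃ : E)
    (F : MvPolynomial (Fin 2) k) :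
    aeval ![x, z, e₂, e₃] (inc F) = aeval ![x, z] F := by
  unfold inc
  rw [aeval_rename]
  congr 2
  funext i
  fin_cases i <;> rfl

theorem htx (halg : AlgStmt.{u}) (hbdt : BdtStmt.{u}) : HtxStmt.{u} := by
  obtain ⟨K₀, M₀, N₀, hK, h⟩ := halg
  refine ⟨max N₀ (max (4 * K₀ * (12 * M₀ + 4) + 16) 20),
    le_trans (le_max_right _ _) (le_max_right _ _), ?_⟩
  intro k _ _ N₁ N₂ a b h1 h2 ha hb hgp
  have h1a : N₀ ≤ N₁ := le_trans (le_max_left _ _) h1
  have h2a : N₀ ≤ N₂ := le_trans (le_max_left _ _) h2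
  have h1b : 4 * K₀ * (12 * M₀ + 4) + 16 ≤ N₁ :=
    le_trans (le_trans (le_max_left _ _) (le_max_right _ _)) h1
  have h2b : 4 * K₀ * (12 * M₀ + 4) + 16 ≤ N₂ :=
    le_trans (le_trans (le_max_left _ _) (le_max_right _ _)) h2
  obtain ⟨F, hF, hall⟩ := h a (slope a) b (slope b) h1a h2a hb hgp
  refine ⟨F, hF, ?_⟩
  intro L E _ _ _ _ _ _ _ _ _ _ D cp sc bd hbp hk x z hx hz hpat hne
  by_contra hlt
  obtain ⟨e₂, e₃, G, hdat⟩ := hbdt D cp sc bd hbp hk K₀ M₀ N₁ N₂ hK h1b h2b a b x z ha hb hx hz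
    hpat (not_le.mp hlt)
  apply hne
  have h3 := hall _ _ hdat
  have h4 : aeval ![x, z, e₂, e₃] (inc F) = (0 : E) := h3
  rw [aeval_inc] at h4
  exact h4

end Pool.Agent.PPX.H5
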